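import Pool.Agent.R537.LR.Stm

/-! LR-EXA: exact completions of rank three and gates. -/

set_option autoImplicit false

namespace Pool.Agent.NPC.R537LR

open Pool.Agent.NPC Pool.Agent.NPC.ER

namespace Exa265

lemma key {R C : Type} [Fintype R] [Fintype C] [DecidableEq C] (B : Matrix R C ℝ)
    (h : B.rank ≤ 3) (a : Fin 3 → R) (b : Fin 3 → C)
    (hab : ∀ i j, B (a i) (b j) = if i = j then 1 else 0) (r : R) (c : C) :
    B r c = ∑ s, B r (b s) * B (a s) c := by
  classical
  set V := LinearMap.range B.mulVecLin with hV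
  have hfin : Module.finrank ℝ V ≤ 3 := h
  have hmem : ∀ c, B.mulVec (Pi.single c 1) ∈ V := fun c => ⟨Pi.single c 1, rfl⟩
  set w : Fin 3 → V := fun j => ⟨B.mulVec (Pi.single (b j) 1), hmem _⟩ with hw
  have hval : ∀ (g : Fin 3 → ℝ) (r : R), ((∑ s, g s • w s : V) : R → ℝ) r =
      ∑ s, g s * B r (b s) := by
    intro g r
    simp [hw, Finset.sum_apply]
  have hli : LinearIndependent ℝ w := by
    rw [Fintype.linearIndependent_iff]
    intro g hg i
    have h1 := hval g (a i)
    rw [hg] at h1
    simp only [hab] at h1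
    simpa using h1.symm
  have hcard : Fintype.card (Fin 3) = Module.finrank ℝ V :=
    le_antisymm hli.fintype_card_le_finrank (by simpa using hfin)
  have hspan := hli.span_eq_top_of_card_eq_finrank' hcard
  have hc : (⟨B.mulVec (Pi.single c 1), hmem c⟩ : V) ∈ Submodule.span ℝ (Set.range w) := by
    rw [hspan]; trivial
  rw [Submodule.mem_span_range_iff_exists_fun] at hc
  obtain ⟨g, hg⟩ := hc
  have hrow : ∀ r, B r c = ∑ s, g s * B r (b s) := by
    intro r
    rw [← hval g r, hg]
    simp
  have hgi : ∀ i, B (a i) c = g i := by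
    intro i; rw [hrow (a i)]; simp [hab]
  rw [hrow r]
  refine Finset.sum_congr rfl fun s _ => ?_
  rw [hgi, mul_comm]

lemma fwd (R : List RName) (C : List Col) (hA : ∀ s : Fin 3, ((0, (s:ℕ)) : RName) ∈ R)
    (hCA : ∀ s : Fin 3, ∃ c ∈ C, c.1 = (s:ℕ))
    (B : Matrix (Fin R.length) (Fin C.length) ℝ) (hB : Compl R C B) :
    ∃ (P : RName → Fin 3 → ℝ) (L : Col → Fin 3 → ℝ),
      (∀ r ∈ R, ∀ s : Fin 3, ∀ q, (rowv r).getD s none = some q → P r s = (q:ℝ) / 8) ∧
      (∀ c ∈ C, ¬ c.1 < 3 → ∀ s : Fin 3, ∀ q, c.2.1.getD s none = some q →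
        L c s = (q:ℝ) / 8) ∧
      (∀ r ∈ R, ∀ c ∈ C, ¬ c.1 < 3 → r.1 ≠ 0 → r ∈ c.2.2 → ∑ s, P r s * L c s = 0) := by
  classical
  obtain ⟨hrank, hent⟩ := hB
  have hR : ∀ r ∈ R, ∃ i, R.get i = r := fun r hr => List.get_of_mem hr
  have hC : ∀ c ∈ C, ∃ i, C.get i = c := fun r hr => List.get_of_mem hr
  have ha' : ∀ s : Fin 3, ∃ i, R.get i = (0, (s:ℕ)) := fun s => hR _ (hA s)
  choose a ha using ha'
  have hb' : ∀ s : Fin 3, ∃ i, (C.get i).1 = (s:ℕ) := by
    intro s
    obtain ⟨c, hc, hc1⟩ := hCA s
    obtain ⟨i, hi⟩ := hC c hc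
    exact ⟨i, by rw [hi, hc1]⟩
  choose b hb using hb'
  have hPr : ∀ (i : Fin R.length) (s : Fin 3) (q : ℤ),
      (rowv (R.get i)).getD s none = some q → B i (b s) = (q:ℝ) / 8 := by
    intro i s q hq
    apply hent
    unfold ent
    rw [hb s, if_pos s.isLt]
    exact hq
  have hab : ∀ i j, B (a i) (b j) = if i = j then 1 else 0 := by
    intro i j
    have h1 : (rowv (R.get (a i))).getD j none = some (if i = j then 8 else 0) := by
      rw [ha i]
      fin_cases i <;> fin_cases j <;> rfl
    rw [hPr (a i) j _ h1]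
    split_ifs <;> norm_num
  have hkey := key B hrank a b hab
  refine ⟨fun r s => if h : r ∈ R then B (Classical.choose (hR r h)) (b s) else 0,
    fun c s => if h : c ∈ C then B (a s) (Classical.choose (hC c h)) else 0, ?_, ?_, ?_⟩
  · intro r hr s q hq
    simp only [hr, dif_pos]
    apply hPr
    rw [Classical.choose_spec (hR r hr)]
    exact hq
  · intro c hc hc3 s q hq
    simp only [hc, dif_pos]
    apply hent
    rw [Classical.choose_spec (hC c hc), ha s]
    unfold ent
    rw [if_neg hc3, if_pos rfl]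
    exact hq
  · intro r hr c hc hc3 hr0 hrc
    simp only [hr, hc, dif_pos]
    rw [← hkey]
    have h1 := hent (Classical.choose (hR r hr)) (Classical.choose (hC c hc)) 0 (by
      rw [Classical.choose_spec (hR r hr), Classical.choose_spec (hC c hc)]
      unfold ent
      rw [if_neg hc3, if_neg hr0, if_pos hrc])
    rw [h1]
    norm_num

/-- The exact rows. -/
noncomputable def PV (v : ℕ → ℝ) (r : RName) : Fin 3 → ℝ :=
  if r.1 = 0 then (if r.2 = 0 then ![1, 0, 0] else if r.2 = 1 then ![0, 1, 0] else ![0, 0, 1])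
  else if r.1 = 1 then ![1, 1, 0]
  else if r.1 = 2 then ![0, 1, -1]
  else if r.1 = 3 then ![v r.2, 1, 0]
  else if r.1 = 4 then ![v r.2, 0, 1]
  else if r.1 = 5 then ![v r.2, 1 / 2, 1 / 2]
  else if r.1 = 6 then ![0, 1, v r.2]
  else ![1, 0, -v r.2]

lemma PV_rowv (v : ℕ → ℝ) (r : RName) (s : Fin 3) (q : ℤ)
    (h : (rowv r).getD s none = some q) : PV v r s = (q:ℝ) / 8 := by
  unfold rowv at h
  unfold PV
  split_ifs at h ⊢ <;> fin_cases s <;> simp at h ⊢ <;> subst h <;> norm_num

lemma rows_mem (n : ℕ) (r : RName) (h : r ∈ rowsL n) : r.1 = 0 → r.2 < 3 := by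
  intro h0
  unfold rowsL at h
  simp only [List.mem_append, List.mem_cons, List.mem_flatMap, List.mem_range,
    List.not_mem_nil, or_false] at h
  rcases h with h | ⟨x, _, h⟩
  · rcases h with h | h | h | h | h <;> subst h <;> simp_all
  · rcases h with h | h | h | h | h <;> subst h <;> simp_all

lemma colcheck (v : ℕ → ℝ) (n : ℕ) (c : Col) (l : Fin 3 → ℝ) (hc : ¬ c.1 < 3)
    (h1 : ∀ s : Fin 3, ∀ q, c.2.1.getD s none = some q → l s = (q:ℝ) / 8)
    (h2 : ∀ r ∈ c.2.2, ∑ s, PV v r s * l s = 0) :
    ∀ r ∈ rowsL n, ∀ q, ent r c = some q → ∑ s, PV v r s * l s = (q:ℝ) / 8 := by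
  intro r hr q hq
  unfold ent at hq
  rw [if_neg hc] at hq
  by_cases h0 : r.1 = 0
  · rw [if_pos h0] at hq
    have h3 := rows_mem n r hr h0
    have h4 := h1 ⟨r.2, h3⟩ q hq
    rw [← h4]
    obtain ⟨r1, r2⟩ := r
    simp only at h0 h3 ⊢
    subst h0
    interval_cases r2 <;> simp [PV, Fin.sum_univ_three]
  · rw [if_neg h0] at hq
    split_ifs at hq with h5
    simp only [Option.some.injEq] at hq
    subst hq
    rw [h2 r h5]
    norm_num

lemma anccheck (v : ℕ → ℝ) (c : Col) (t : Fin 3) (hc : c.1 = (t:ℕ)) (r : RName) (q : ℤ)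
    (hq : ent r c = some q) :
    ∑ s, PV v r s * (if s = t then (1:ℝ) else 0) = (q:ℝ) / 8 := by
  unfold ent at hq
  rw [hc, if_pos t.isLt] at hq
  have := PV_rowv v r t q hq
  simp [this]

end Exa265

open Exa265 in
theorem t_EXA : S_EXA := by
  intro n G hG
  have hrows : ∀ x < n, ∀ t ∈ [3, 4, 5, 6, 7], ((t, x) : RName) ∈ rowsL n := by
    intro x hx t ht
    unfold rowsL
    simp only [List.mem_append, List.mem_flatMap, List.mem_range]
    right
    refine ⟨x, hx, ?_⟩
    simp only [List.mem_cons, List.not_mem_nil, or_false] at ht ⊢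
    rcases ht with h | h | h | h | h <;> subst h <;> simp
  have hcolV : ∀ x < n, ∀ c ∈ colV x, c ∈ colsL n G := by
    intro x hx c hc
    unfold colsL
    simp only [List.mem_append, List.mem_flatMap, List.mem_range]
    right; left
    exact ⟨x, hx, hc⟩
  have hcolG : ∀ g ∈ G, colG g ∈ colsL n G := by
    intro g hg
    unfold colsL
    simp only [List.mem_append, List.mem_map]
    right; right
    exact ⟨g, hg, rfl⟩
  constructor
  · rintro ⟨B, hB⟩
    obtain ⟨P, L, hP, hL, hPL⟩ := fwd (rowsL n) (colsL n G)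
      (by
        intro s
        unfold rowsL
        fin_cases s <;> simp)
      (by
        intro s
        unfold colsL colA
        fin_cases s
        · exact ⟨(0, [some 8, some 0, some 0], []), by simp, rfl⟩
        · exact ⟨(1, [some 0, some 8, some 0], []), by simp, rfl⟩
        · exact ⟨(2, [some 0, some 0, some 8], []), by simp, rfl⟩) B hB
    have hR1 : ((1, 0) : RName) ∈ rowsL n := by unfold rowsL; simp
    have hR2 : ((2, 0) : RName) ∈ rowsL n := by unfold rowsL; simp
    have p10 : P (1, 0) 0 = 1 := by rw [hP (1, 0) hR1 0 8 rfl]; norm_num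
    have p11 : P (1, 0) 1 = 1 := by rw [hP (1, 0) hR1 1 8 rfl]; norm_num
    have p12 : P (1, 0) 2 = 0 := by rw [hP (1, 0) hR1 2 0 rfl]; norm_num
    have p20 : P (2, 0) 0 = 0 := by rw [hP (2, 0) hR2 0 0 rfl]; norm_num
    have p21 : P (2, 0) 1 = 1 := by rw [hP (2, 0) hR2 1 8 rfl]; norm_num
    have p22 : P (2, 0) 2 = -1 := by rw [hP (2, 0) hR2 2 (-8) rfl]; norm_num
    have p31 : ∀ x < n, P (3, x) 1 = 1 := fun x hx => by
      rw [hP (3, x) (hrows x hx 3 (by simp)) 1 8 rfl]; norm_num
    have p32 : ∀ x < n, P (3, x) 2 = 0 := fun x hx => by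
      rw [hP (3, x) (hrows x hx 3 (by simp)) 2 0 rfl]; norm_num
    have p41 : ∀ x < n, P (4, x) 1 = 0 := fun x hx => by
      rw [hP (4, x) (hrows x hx 4 (by simp)) 1 0 rfl]; norm_num
    have p42 : ∀ x < n, P (4, x) 2 = 1 := fun x hx => by
      rw [hP (4, x) (hrows x hx 4 (by simp)) 2 8 rfl]; norm_num
    have p51 : ∀ x < n, P (5, x) 1 = 1 / 2 := fun x hx => by
      rw [hP (5, x) (hrows x hx 5 (by simp)) 1 4 rfl]; norm_num
    have p52 : ∀ x < n, P (5, x) 2 = 1 / 2 := fun x hx => by
      rw [hP (5, x) (hrows x hx 5 (by simp)) 2 4 rfl]; norm_num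
    have p60 : ∀ x < n, P (6, x) 0 = 0 := fun x hx => by
      rw [hP (6, x) (hrows x hx 6 (by simp)) 0 0 rfl]; norm_num
    have p61 : ∀ x < n, P (6, x) 1 = 1 := fun x hx => by
      rw [hP (6, x) (hrows x hx 6 (by simp)) 1 8 rfl]; norm_num
    have p70 : ∀ x < n, P (7, x) 0 = 1 := fun x hx => by
      rw [hP (7, x) (hrows x hx 7 (by simp)) 0 8 rfl]; norm_num
    have p71 : ∀ x < n, P (7, x) 1 = 0 := fun x hx => by
      rw [hP (7, x) (hrows x hx 7 (by simp)) 1 0 rfl]; norm_num
    have eqs : ∀ x < n, P (4, x) 0 = P (3, x) 0 ∧ P (5, x) 0 = P (3, x) 0 ∧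
        P (6, x) 2 = P (3, x) 0 ∧ P (7, x) 2 = - P (3, x) 0 := by
      intro x hx
      have m1 : ((3, [some 8, none, none], [(2, 0), (3, x), (4, x), (5, x)]) : Col) ∈
          colsL n G := hcolV x hx _ (by simp [colV])
      have m2 : ((3, [none, none, some 8], [(1, 0), (6, x), (7, x)]) : Col) ∈
          colsL n G := hcolV x hx _ (by simp [colV])
      have m3 : ((3, [some 8, none, some 8], [(3, x), (6, x)]) : Col) ∈
          colsL n G := hcolV x hx _ (by simp [colV])
      have l1 := hL _ m1 (by norm_num) 0 8 rfl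
      have l2 := hL _ m2 (by norm_num) 2 8 rfl
      have l3 := hL _ m3 (by norm_num) 0 8 rfl
      have l4 := hL _ m3 (by norm_num) 2 8 rfl
      have o1 := hPL (2, 0) hR2 _ m1 (by norm_num) (by norm_num) (by simp)
      have o2 := hPL (3, x) (hrows x hx 3 (by simp)) _ m1 (by norm_num) (by norm_num) (by simp)
      have o3 := hPL (4, x) (hrows x hx 4 (by simp)) _ m1 (by norm_num) (by norm_num) (by simp)
      have o4 := hPL (5, x) (hrows x hx 5 (by simp)) _ m1 (by norm_num) (by norm_num) (by simp)
      have o5 := hPL (1, 0) hR1 _ m2 (by norm_num) (by norm_num) (by simp)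
      have o6 := hPL (6, x) (hrows x hx 6 (by simp)) _ m2 (by norm_num) (by norm_num) (by simp)
      have o7 := hPL (7, x) (hrows x hx 7 (by simp)) _ m2 (by norm_num) (by norm_num) (by simp)
      have o8 := hPL (3, x) (hrows x hx 3 (by simp)) _ m3 (by norm_num) (by norm_num) (by simp)
      have o9 := hPL (6, x) (hrows x hx 6 (by simp)) _ m3 (by norm_num) (by norm_num) (by simp)
      rw [Fin.sum_univ_three] at o1 o2 o3 o4 o5 o6 o7 o8 o9
      rw [p20, p21, p22] at o1
      rw [l1, p31 x hx, p32 x hx] at o2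
      rw [l1, p41 x hx, p42 x hx] at o3
      rw [l1, p51 x hx, p52 x hx] at o4
      rw [p10, p11, p12] at o5
      rw [l2, p60 x hx, p61 x hx] at o6
      rw [l2, p70 x hx, p71 x hx] at o7
      rw [l3, l4, p31 x hx, p32 x hx] at o8
      rw [l3, l4, p60 x hx, p61 x hx] at o9
      push_cast at o1 o2 o3 o4 o5 o6 o7 o8 o9
      refine ⟨?_, ?_, ?_, ?_⟩ <;> linarith
    refine ⟨fun x => P (3, x) 0, ?_⟩
    intro g hg
    obtain ⟨hi, hj, hk⟩ := hG g hg
    have hm := hcolG g hg
    unfold GHolds
    unfold colG at hm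
    simp only
    split_ifs at hm ⊢ with h0 h1 h2
    · have l0 := hL _ hm (by norm_num) 0 8 rfl
      have l1 := hL _ hm (by norm_num) 1 (-g.2.2.2.2) rfl
      have l2 := hL _ hm (by norm_num) 2 0 rfl
      have o1 := hPL (3, g.2.2.2.1) (hrows _ hk 3 (by simp)) _ hm (by norm_num) (by norm_num)
        (by simp)
      rw [Fin.sum_univ_three, l0, l1, l2, p31 _ hk, p32 _ hk] at o1
      push_cast at o1
      linarith
    · have l0 := hL _ hm (by norm_num) 0 8 rfl
      have o1 := hPL (3, g.2.1) (hrows _ hi 3 (by simp)) _ hm (by norm_num) (by norm_num)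
        (by simp)
      have o2 := hPL (4, g.2.2.1) (hrows _ hj 4 (by simp)) _ hm (by norm_num) (by norm_num)
        (by simp)
      have o3 := hPL (5, g.2.2.2.1) (hrows _ hk 5 (by simp)) _ hm (by norm_num) (by norm_num)
        (by simp)
      rw [Fin.sum_univ_three] at o1 o2 o3
      rw [l0, p31 _ hi, p32 _ hi] at o1
      rw [l0, p41 _ hj, p42 _ hj, (eqs _ hj).1] at o2
      rw [l0, p51 _ hk, p52 _ hk, (eqs _ hk).2.1] at o3
      push_cast at o1 o2 o3
      linarith
    · have l0 := hL _ hm (by norm_num) 2 8 rfl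
      have o1 := hPL (7, g.2.1) (hrows _ hi 7 (by simp)) _ hm (by norm_num) (by norm_num)
        (by simp)
      have o2 := hPL (3, g.2.2.1) (hrows _ hj 3 (by simp)) _ hm (by norm_num) (by norm_num)
        (by simp)
      have o3 := hPL (6, g.2.2.2.1) (hrows _ hk 6 (by simp)) _ hm (by norm_num) (by norm_num)
        (by simp)
      rw [Fin.sum_univ_three] at o1 o2 o3
      rw [l0, p70 _ hi, p71 _ hi, (eqs _ hi).2.2.2] at o1
      rw [l0, p31 _ hj, p32 _ hj] at o2
      rw [l0, p60 _ hk, p61 _ hk, (eqs _ hk).2.2.1] at o3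
      push_cast at o1 o2 o3
      generalize L (3, [none, none, some 8], [(7, g.2.1), (3, g.2.2.1), (6, g.2.2.2.1)]) 0 = u at *
      generalize L (3, [none, none, some 8], [(7, g.2.1), (3, g.2.2.1), (6, g.2.2.2.1)]) 1 = w at *
      have hu : u = P (3, g.2.1) 0 := by linarith
      rw [hu] at o2
      linarith
  · rintro ⟨v, hv⟩
    have hcol : ∀ c ∈ colsL n G, ∃ l : Fin 3 → ℝ, ∀ r ∈ rowsL n, ∀ q, ent r c = some q →
        ∑ s, PV v r s * l s = (q:ℝ) / 8 := by
      intro c hc
      unfold colsL at hc
      simp only [List.mem_append, List.mem_flatMap, List.mem_range, List.mem_map] at hc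
      rcases hc with hc | ⟨x, hx, hc⟩ | ⟨g, hg, hc⟩
      · unfold colA at hc
        simp only [List.mem_cons, List.not_mem_nil, or_false] at hc
        rcases hc with hc | hc | hc
        · exact ⟨fun s => if s = 0 then 1 else 0, fun r _ q hq =>
            anccheck v c 0 (by rw [hc]; rfl) r q hq⟩
        · exact ⟨fun s => if s = 1 then 1 else 0, fun r _ q hq =>
            anccheck v c 1 (by rw [hc]; rfl) r q hq⟩
        · exact ⟨fun s => if s = 2 then 1 else 0, fun r _ q hq =>
            anccheck v c 2 (by rw [hc]; rfl) r q hq⟩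
      · unfold colV at hc
        simp only [List.mem_cons, List.not_mem_nil, or_false] at hc
        rcases hc with hc | hc | hc
        · refine ⟨![1, -v x, -v x], colcheck v n c _ (by rw [hc]; norm_num) ?_ ?_⟩
          · subst hc
            intro s q hq
            fin_cases s <;> simp at hq ⊢ <;> subst hq <;> norm_num
          · subst hc
            intro r hr
            simp only [List.mem_cons, List.not_mem_nil, or_false] at hr
            rcases hr with h | h | h | h <;> subst h <;>
              simp [PV, Fin.sum_univ_three] <;> ring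
        · refine ⟨![v x, -v x, 1], colcheck v n c _ (by rw [hc]; norm_num) ?_ ?_⟩
          · subst hc
            intro s q hq
            fin_cases s <;> simp at hq ⊢ <;> subst hq <;> norm_num
          · subst hc
            intro r hr
            simp only [List.mem_cons, List.not_mem_nil, or_false] at hr
            rcases hr with h | h | h <;> subst h <;>
              simp [PV, Fin.sum_univ_three]
        · refine ⟨![1, -v x, 1], colcheck v n c _ (by rw [hc]; norm_num) ?_ ?_⟩
          · subst hc
            intro s q hq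
            fin_cases s <;> simp at hq ⊢ <;> subst hq <;> norm_num
          · subst hc
            intro r hr
            simp only [List.mem_cons, List.not_mem_nil, or_false] at hr
            rcases hr with h | h <;> subst h <;>
              simp [PV, Fin.sum_univ_three]
      · have hvg := hv g hg
        unfold GHolds at hvg
        unfold colG at hc
        split_ifs at hc hvg with h0 h1 h2
        · refine ⟨![1, 0, 0], colcheck v n c _ (by rw [← hc]; norm_num) ?_ ?_⟩
          · subst hc
            intro s q hq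
            fin_cases s <;> simp at hq ⊢ <;> subst hq <;> norm_num
          · subst hc
            intro r hr
            simp at hr
        · refine ⟨![1, -((g.2.2.2.2 : ℝ) / 8), 0], colcheck v n c _ (by rw [← hc]; norm_num)
            ?_ ?_⟩
          · subst hc
            intro s q hq
            fin_cases s
            · simp at hq ⊢; subst hq; norm_num
            · simp at hq ⊢; subst hq; push_cast; ring
            · simp at hq ⊢; subst hq; norm_num
          · subst hc
            intro r hr
            simp only [List.mem_cons, List.not_mem_nil, or_false] at hr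
            subst hr
            simp [PV, Fin.sum_univ_three, hvg]
        · refine ⟨![1, -v g.2.1, -v g.2.2.1], colcheck v n c _ (by rw [← hc]; norm_num) ?_ ?_⟩
          · subst hc
            intro s q hq
            fin_cases s <;> simp at hq ⊢ <;> subst hq <;> norm_num
          · subst hc
            intro r hr
            simp only [List.mem_cons, List.not_mem_nil, or_false] at hr
            rcases hr with h | h | h <;> subst h <;>
              simp [PV, Fin.sum_univ_three]
            linarith
        · refine ⟨![v g.2.1, -v g.2.2.2.1, 1], colcheck v n c _ (by rw [← hc]; norm_num) ?_ ?_⟩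
          · subst hc
            intro s q hq
            fin_cases s <;> simp at hq ⊢ <;> subst hq <;> norm_num
          · subst hc
            intro r hr
            simp only [List.mem_cons, List.not_mem_nil, or_false] at hr
            rcases hr with h | h | h <;> subst h <;>
              simp [PV, Fin.sum_univ_three]
            linarith
    have hcol2 : ∀ j : Fin (colsL n G).length, ∃ l : Fin 3 → ℝ, ∀ r ∈ rowsL n, ∀ q,
        ent r ((colsL n G).get j) = some q → ∑ s, PV v r s * l s = (q:ℝ) / 8 :=
      fun j => hcol _ (List.get_mem _ _)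
    choose l hl using hcol2
    refine ⟨(Matrix.of fun (i : Fin (rowsL n).length) (s : Fin 3) => PV v ((rowsL n).get i) s) *
      (Matrix.of fun (s : Fin 3) (j : Fin (colsL n G).length) => l j s), ?_, ?_⟩
    · refine (Matrix.rank_mul_le_left _ _).trans ?_
      refine (Matrix.rank_le_card_width _).trans ?_
      simp
    · intro i j q hq
      rw [Matrix.mul_apply]
      exact hl j _ (List.get_mem _ _) q hq

end Pool.Agent.NPC.R537LR
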